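import Pool.Agent.Helper36.RN.GoalsG

/-!
# Project RFn, packet RAD: the radial direction

Author: helper77.
-/

namespace Pool.Agent.Helper77.RN

open Finset Pool.Agent.Helper47.RFn Pool.Agent.Helper36.RN

section

variable {n : ℕ} {𝒜 : Type} [CommRing 𝒜] [Algebra ℝ 𝒜] {e : Ix n → Derivation ℝ 𝒜 𝒜} {n0 : Ix n → 𝒜}
  {A θ : Ix n → Ix n → 𝒜} {w : Ix n → Ix n → Ix n → 𝒜}

theorem dmul (D : Derivation ℝ 𝒜 𝒜) (a b : 𝒜) : D (a * b) = a * D b + b * D a := by
  rw [Derivation.leibniz]; simp [smul_eq_mul]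

/-- `∑_a vv_a A_ak = n0_k` -/
theorem vvA (C : CH A θ w) (k : Ix n) : ∑ a, TC.vv n0 θ a * A a k = n0 k := by
  have h : ∀ a, TC.vv n0 θ a * A a k = ∑ i, n0 i * (θ i a * A a k) := by
    intro a
    rw [TC.vv, sum_mul]
    exact sum_congr rfl fun i _ => by ring
  simp_rw [h]
  rw [sum_comm]
  simp_rw [← mul_sum, C.tA]
  simp

/-- contraction of the second index of a frame form with `vv` -/
theorem vvcon (C : CH A θ w) (G : Ix n → Ix n → 𝒜) (p : Ix n) :
    ∑ a, TC.vv n0 θ a * (∑ i, ∑ j, A p i * A a j * G i j) = ∑ i, A p i * ∑ j, n0 j * G i j := by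
  have h : ∀ a, TC.vv n0 θ a * (∑ i, ∑ j, A p i * A a j * G i j)
      = ∑ i, ∑ j, (A p i * G i j) * (TC.vv n0 θ a * A a j) := by
    intro a
    rw [mul_sum]
    refine sum_congr rfl fun i _ => ?_
    rw [mul_sum]
    exact sum_congr rfl fun j _ => by ring
  simp_rw [h]
  rw [sum_comm]
  refine sum_congr rfl fun i _ => ?_
  rw [sum_comm, mul_sum]
  refine sum_congr rfl fun j _ => ?_
  rw [← mul_sum, vvA C]
  ring

/-- derivative of a contraction with `n0` -/
theorem dcon (B : BH e n0) (g : Ix n → 𝒜) (j : Ix n) :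
    e j (∑ k, n0 k * g k) = g j - n0 j * (∑ k, n0 k * g k) + ∑ k, n0 k * e j (g k) := by
  rw [map_sum]
  have h : ∀ k, e j (n0 k * g k) = (if j = k then g k else 0) - n0 j * (n0 k * g k) + n0 k * e j (g k) := by
    intro k
    rw [dmul, B.en]
    split_ifs <;> ring
  simp_rw [h]
  rw [sum_add_distrib, sum_sub_distrib, ← mul_sum]
  simp

theorem nn' (B : BH e n0) : ∑ i, n0 i * n0 i = 1 := by
  rw [← B.nn]
  exact sum_congr rfl fun i _ => by ring

/-- `∑_k n0_k F_jkcd` -/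
theorem nF (B : BH e n0) (j c d : Ix n) :
    ∑ k, n0 k * TC.F e n0 w j k c d = e j (TC.wr n0 w c d)
      + ∑ f, (TC.wr n0 w c f * w j f d - w j c f * TC.wr n0 w f d) := by
  have h1 : e j (TC.wr n0 w c d) = w j c d - n0 j * TC.wr n0 w c d + ∑ k, n0 k * e j (w k c d) :=
    dcon B (fun k => w k c d) j
  have h2 : ∀ k, n0 k * TC.F e n0 w j k c d = n0 k * e j (w k c d) - n0 k * e k (w j c d)
      + (∑ f, ((n0 k * w k c f) * w j f d - w j c f * (n0 k * w k f d)))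
      - (n0 j * (n0 k * w k c d) - (n0 k * n0 k) * w j c d) := by
    intro k
    have h3 : (∑ f, ((n0 k * w k c f) * w j f d - w j c f * (n0 k * w k f d)))
        = n0 k * ∑ f, (w k c f * w j f d - w j c f * w k f d) := by
      rw [mul_sum]
      exact sum_congr rfl fun f _ => by ring
    rw [h3, TC.F]
    ring
  have h4 : ∑ k, n0 k * TC.F e n0 w j k c d = ∑ k, n0 k * e j (w k c d) - ∑ k, n0 k * e k (w j c d)
      + (∑ k, ∑ f, ((n0 k * w k c f) * w j f d - w j c f * (n0 k * w k f d)))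
      - (n0 j * (∑ k, n0 k * w k c d) - (∑ k, n0 k * n0 k) * w j c d) := by
    simp_rw [h2]
    rw [sum_sub_distrib, sum_add_distrib, sum_sub_distrib, sum_sub_distrib, mul_sum, sum_mul]
  have h5 : (∑ k, ∑ f, ((n0 k * w k c f) * w j f d - w j c f * (n0 k * w k f d)))
      = ∑ f, (TC.wr n0 w c f * w j f d - w j c f * TC.wr n0 w f d) := by
    rw [sum_comm]
    refine sum_congr rfl fun f _ => ?_
    rw [sum_sub_distrib, ← sum_mul, ← mul_sum]
    rfl
  rw [h4, h5, B.ne, nn' B, h1]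
  change _ - 0 + _ - (n0 j * TC.wr n0 w c d - 1 * w j c d) = _
  ring

/-- conclusion (1) -/
theorem rad1 (B : BH e n0) (C : CH A θ w) (p c d : Ix n) :
    TC.cd2 e A w p (TC.wr n0 w) c d = ∑ a, TC.vv n0 θ a * TC.K e n0 A w p a c d := by
  have h := vvcon (n0 := n0) C (fun i j => TC.F e n0 w i j c d) p
  have h' : ∑ a, TC.vv n0 θ a * TC.K e n0 A w p a c d = ∑ i, A p i * ∑ j, n0 j * TC.F e n0 w i j c d := h
  rw [h']
  simp_rw [nF B]
  have h1 : ∀ i, A p i * (e i (TC.wr n0 w c d) + ∑ f, (TC.wr n0 w c f * w i f d - w i c f * TC.wr n0 w f d))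
      = A p i * e i (TC.wr n0 w c d) + ∑ f, (TC.wr n0 w c f * (A p i * w i f d) - (A p i * w i c f) * TC.wr n0 w f d) := by
    intro i
    rw [mul_add, mul_sum]
    congr 1
    exact sum_congr rfl fun f _ => by ring
  simp_rw [h1]
  rw [sum_add_distrib, sum_comm (f := fun i f => _)]
  rw [TC.cd2, FR.Fd, sub_eq_add_neg, ← sum_neg_distrib]
  congr 1
  refine sum_congr rfl fun f _ => ?_
  rw [sum_sub_distrib, ← sum_mul, ← mul_sum]
  have h2 : TC.Ga A w p d f = - ∑ i, A p i * w i f d := by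
    rw [TC.Ga, ← sum_neg_distrib]
    refine sum_congr rfl fun i _ => ?_
    rw [C.anti i d f]; ring
  rw [h2]
  change _ = _ - TC.Ga A w p c f * _
  ring

/-- `∑_j n0_j T_ijc` -/
theorem nT (B : BH e n0) (i c : Ix n) :
    ∑ j, n0 j * TC.T e n0 θ w i j c = (∑ j, n0 j * e i (θ j c))
      + ∑ b, (TC.vv n0 θ b * w i b c - θ i b * TC.wr n0 w b c) - n0 i * TC.vv n0 θ c + θ i c := by
  have h2 : ∀ j, n0 j * TC.T e n0 θ w i j c = n0 j * e i (θ j c) - n0 j * e j (θ i c)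
      + (∑ b, ((θ j b * n0 j) * w i b c - θ i b * (n0 j * w j b c)))
      - (n0 i * (θ j c * n0 j) - (n0 j * n0 j) * θ i c) := by
    intro j
    have h3 : (∑ b, ((θ j b * n0 j) * w i b c - θ i b * (n0 j * w j b c)))
        = n0 j * ∑ b, (θ j b * w i b c - θ i b * w j b c) := by
      rw [mul_sum]
      exact sum_congr rfl fun f _ => by ring
    rw [h3, TC.T]
    ring
  have h4 : ∑ j, n0 j * TC.T e n0 θ w i j c = ∑ j, n0 j * e i (θ j c) - ∑ j, n0 j * e j (θ i c)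
      + (∑ j, ∑ b, ((θ j b * n0 j) * w i b c - θ i b * (n0 j * w j b c)))
      - (n0 i * (∑ j, θ j c * n0 j) - (∑ j, n0 j * n0 j) * θ i c) := by
    simp_rw [h2]
    rw [sum_sub_distrib, sum_add_distrib, sum_sub_distrib, sum_sub_distrib, mul_sum, sum_mul]
  have h5 : (∑ j, ∑ b, ((θ j b * n0 j) * w i b c - θ i b * (n0 j * w j b c)))
      = ∑ b, (TC.vv n0 θ b * w i b c - θ i b * TC.wr n0 w b c) := by
    rw [sum_comm]
    refine sum_congr rfl fun f _ => ?_
    rw [sum_sub_distrib, ← sum_mul, ← mul_sum]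
    rfl
  rw [h4, h5, B.ne, nn' B]
  change _ - 0 + _ - (n0 i * TC.vv n0 θ c - 1 * θ i c) = _
  ring

/-- conclusion (2) -/
theorem rad2 (B : BH e n0) (C : CH A θ w) (p c : Ix n) :
    TC.cd1 e A w p (TC.vv n0 θ) c = TC.wr n0 w p c
      + ∑ a, TC.vv n0 θ a * TC.ta e n0 A θ w p a c := by
  have h := vvcon (n0 := n0) C (fun i j => TC.T e n0 θ w i j c) p
  have h' : ∑ a, TC.vv n0 θ a * TC.ta e n0 A θ w p a c = ∑ i, A p i * ∑ j, n0 j * TC.T e n0 θ w i j c := h
  rw [h']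
  simp_rw [nT B]
  have hv : ∀ i, e i (TC.vv n0 θ c) = θ i c - n0 i * TC.vv n0 θ c + ∑ k, n0 k * e i (θ k c) := by
    intro i
    have h1 := dcon B (fun k => θ k c) i
    have h2 : TC.vv n0 θ c = ∑ k, n0 k * θ k c := by
      rw [TC.vv]; exact sum_congr rfl fun k _ => by ring
    rw [h2]; exact h1
  have h1 : ∀ i, A p i * ((∑ j, n0 j * e i (θ j c))
      + ∑ b, (TC.vv n0 θ b * w i b c - θ i b * TC.wr n0 w b c) - n0 i * TC.vv n0 θ c + θ i c)
      = A p i * e i (TC.vv n0 θ c)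
        + ∑ b, (TC.vv n0 θ b * (A p i * w i b c) - (A p i * θ i b) * TC.wr n0 w b c) := by
    intro i
    have h3 : ∑ b, (TC.vv n0 θ b * (A p i * w i b c) - (A p i * θ i b) * TC.wr n0 w b c)
        = A p i * ∑ b, (TC.vv n0 θ b * w i b c - θ i b * TC.wr n0 w b c) := by
      rw [mul_sum]
      exact sum_congr rfl fun f _ => by ring
    rw [hv, h3]
    ring
  simp_rw [h1]
  rw [sum_add_distrib, sum_comm (f := fun i b => _)]
  have h4 : ∀ b, ∑ i, (TC.vv n0 θ b * (A p i * w i b c) - (A p i * θ i b) * TC.wr n0 w b c)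
      = - (TC.Ga A w p c b * TC.vv n0 θ b) - (if p = b then TC.wr n0 w b c else 0) := by
    intro b
    rw [sum_sub_distrib, ← sum_mul, ← mul_sum, C.At]
    have h2 : TC.Ga A w p c b = - ∑ i, A p i * w i b c := by
      rw [TC.Ga, ← sum_neg_distrib]
      refine sum_congr rfl fun i _ => ?_
      rw [C.anti i c b]; ring
    rw [h2]
    split_ifs <;> ring
  simp_rw [h4]
  rw [sum_sub_distrib, sum_neg_distrib, TC.cd1, FR.Fd]
  simp only [sum_ite_eq, mem_univ, if_true]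
  ring

/-- antisymmetry of `Ga` -/
theorem Gaanti (C : CH A θ w) (a c d : Ix n) : TC.Ga A w a c d = - TC.Ga A w a d c := by
  rw [TC.Ga, TC.Ga, ← sum_neg_distrib]
  refine sum_congr rfl fun i _ => ?_
  rw [C.anti i c d]; ring

/-- derivation `F_p` -/
theorem Fmul (p : Ix n) (f g : 𝒜) : FR.Fd e A p (f * g) = f * FR.Fd e A p g + g * FR.Fd e A p f := by
  rw [FR.Fd, FR.Fd, FR.Fd, mul_sum, mul_sum, ← sum_add_distrib]
  refine sum_congr rfl fun i _ => ?_
  rw [dmul]; ring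

theorem Fsum (p : Ix n) {ι : Type} (s : Finset ι) (f : ι → 𝒜) :
    FR.Fd e A p (∑ a ∈ s, f a) = ∑ a ∈ s, FR.Fd e A p (f a) := by
  simp only [FR.Fd, map_sum, mul_sum]
  rw [sum_comm]

/-- product rule for the contraction with `vv` -/
theorem prodrule (C : CH A θ w) (v : Ix n → 𝒜) (X : Ix n → Ix n → Ix n → Ix n → 𝒜) (p q c d : Ix n) :
    ∑ a, v a * TC.cd4 e A w p X q a c d =
      TC.cd3 e A w p (fun q c d => ∑ a, v a * X q a c d) q c d
      - ∑ a, TC.cd1 e A w p v a * X q a c d := by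
  have h1 : ∀ a, v a * TC.cd4 e A w p X q a c d = v a * FR.Fd e A p (X q a c d)
      - ∑ f, (TC.Ga A w p q f * (v a * X f a c d) + TC.Ga A w p c f * (v a * X q a f d)
        + TC.Ga A w p d f * (v a * X q a c f)) - ∑ f, TC.Ga A w p a f * (v a * X q f c d) := by
    intro a
    have h2 : ∑ f, (TC.Ga A w p q f * (v a * X f a c d) + TC.Ga A w p c f * (v a * X q a f d)
        + TC.Ga A w p d f * (v a * X q a c f)) + ∑ f, TC.Ga A w p a f * (v a * X q f c d)
        = v a * ∑ f, (TC.Ga A w p q f * X f a c d + TC.Ga A w p a f * X q f c d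
    + TC.Ga A w p c f * X q a f d + TC.Ga A w p d f * X q a c f) := by
      rw [mul_sum, ← sum_add_distrib]
      exact sum_congr rfl fun f _ => by ring
    rw [TC.cd4, mul_sub, ← h2]
    ring
  have h3 : ∀ a, TC.cd1 e A w p v a * X q a c d = X q a c d * FR.Fd e A p (v a)
      - ∑ f, TC.Ga A w p a f * (v f * X q a c d) := by
    intro a
    rw [TC.cd1, sub_mul, sum_mul]
    congr 1
    · ring
    · exact sum_congr rfl fun f _ => by ring
  have h4 : ∑ a, ∑ f, TC.Ga A w p a f * (v a * X q f c d)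
      = - ∑ a, ∑ f, TC.Ga A w p a f * (v f * X q a c d) := by
    rw [sum_comm, ← sum_neg_distrib]
    refine sum_congr rfl fun f _ => ?_
    rw [← sum_neg_distrib]
    refine sum_congr rfl fun a _ => ?_
    rw [Gaanti C p a f]; ring
  have h5 : FR.Fd e A p (∑ a, v a * X q a c d) = ∑ a, v a * FR.Fd e A p (X q a c d)
      + ∑ a, X q a c d * FR.Fd e A p (v a) := by
    rw [Fsum, ← sum_add_distrib]
    exact sum_congr rfl fun a _ => Fmul p _ _
  have h6 : ∑ a, ∑ f, (TC.Ga A w p q f * (v a * X f a c d) + TC.Ga A w p c f * (v a * X q a f d)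
        + TC.Ga A w p d f * (v a * X q a c f)) =
      ∑ f, (TC.Ga A w p q f * (∑ a, v a * X f a c d) + TC.Ga A w p c f * (∑ a, v a * X q a f d)
        + TC.Ga A w p d f * (∑ a, v a * X q a c f)) := by
    rw [sum_comm]
    refine sum_congr rfl fun f _ => ?_
    rw [sum_add_distrib, sum_add_distrib, mul_sum, mul_sum, mul_sum]
  simp_rw [h1, h3]
  rw [sum_sub_distrib, sum_sub_distrib, sum_sub_distrib, TC.cd3, h5, h4, h6]
  ring

/-- conclusion (3) -/
theorem rad3 (B : BH e n0) (C : CH A θ w) (c d : Ix n) :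
    ∑ i, n0 i * TC.rw e n0 A θ w i c d =
    ∑ p, TC.cd3 e A w p (fun p c d => TC.cd2 e A w p (TC.wr n0 w) c d) p c d
    - ∑ p, ∑ a, TC.cd1 e A w p (TC.vv n0 θ) a * TC.K e n0 A w p a c d
    - ∑ f, (TC.wr n0 w c f * TC.ze e A w f d + TC.wr n0 w d f * TC.ze e A w c f) := by
  have h1 : ∀ i, n0 i * TC.rw e n0 A θ w i c d = ∑ a, (θ i a * n0 i) * TC.y3 e n0 A w a c d
      + n0 i * e i (TC.ze e A w c d)
      - ∑ f, ((n0 i * w i c f) * TC.ze e A w f d + (n0 i * w i d f) * TC.ze e A w c f) := by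
    intro i
    have h2 : ∑ f, ((n0 i * w i c f) * TC.ze e A w f d + (n0 i * w i d f) * TC.ze e A w c f)
        = n0 i * ∑ f, (w i c f * TC.ze e A w f d + w i d f * TC.ze e A w c f) := by
      rw [mul_sum]
      exact sum_congr rfl fun f _ => by ring
    have h3 : ∑ a, (θ i a * n0 i) * TC.y3 e n0 A w a c d = n0 i * ∑ a, θ i a * TC.y3 e n0 A w a c d := by
      rw [mul_sum]
      exact sum_congr rfl fun f _ => by ring
    rw [h2, h3, TC.rw]
    ring
  have h4 : ∑ i, ∑ a, (θ i a * n0 i) * TC.y3 e n0 A w a c d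
      = ∑ a, TC.vv n0 θ a * TC.y3 e n0 A w a c d := by
    rw [sum_comm]
    refine sum_congr rfl fun a _ => ?_
    rw [← sum_mul]; rfl
  have h5 : ∑ i, ∑ f, ((n0 i * w i c f) * TC.ze e A w f d + (n0 i * w i d f) * TC.ze e A w c f)
      = ∑ f, (TC.wr n0 w c f * TC.ze e A w f d + TC.wr n0 w d f * TC.ze e A w c f) := by
    rw [sum_comm]
    refine sum_congr rfl fun f _ => ?_
    rw [sum_add_distrib, ← sum_mul, ← sum_mul]; rfl
  have h6 : ∑ a, TC.vv n0 θ a * TC.y3 e n0 A w a c d =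
      ∑ p, TC.cd3 e A w p (fun p c d => TC.cd2 e A w p (TC.wr n0 w) c d) p c d
      - ∑ p, ∑ a, TC.cd1 e A w p (TC.vv n0 θ) a * TC.K e n0 A w p a c d := by
    have h7 : ∀ a, TC.vv n0 θ a * TC.y3 e n0 A w a c d
        = ∑ p, TC.vv n0 θ a * TC.cd4 e A w p (TC.K e n0 A w) p a c d := by
      intro a
      rw [TC.y3, mul_sum]
    simp_rw [h7]
    rw [sum_comm, ← sum_sub_distrib]
    refine sum_congr rfl fun p _ => ?_
    rw [prodrule C]
    congr 2
    funext q c d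
    exact (rad1 B C q c d).symm
  simp_rw [h1]
  rw [sum_sub_distrib, sum_add_distrib, h4, h5, h6, B.ne]
  ring

/-- `e_i vv_c = ∑_f w_icf vv_f` -/
theorem dvv (B : BH e n0) (C : CH A θ w) (h0 : ∀ a b c, TC.ta e n0 A θ w a b c = 0)
    (hw : ∀ c d, TC.wr n0 w c d = 0) (i c : Ix n) :
    e i (TC.vv n0 θ c) = ∑ f, w i c f * TC.vv n0 θ f := by
  have h1 : ∀ p, FR.Fd e A p (TC.vv n0 θ c) = ∑ f, TC.Ga A w p c f * TC.vv n0 θ f := by
    intro p
    have h2 := rad2 B C p c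
    rw [TC.cd1, hw] at h2
    simp only [h0, mul_zero, sum_const_zero, add_zero] at h2
    exact sub_eq_zero.mp h2
  have h3 : ∀ (G : Ix n → 𝒜), ∑ p, θ i p * (∑ j, A p j * G j) = G i := by
    intro G
    have h4 : ∀ p, θ i p * (∑ j, A p j * G j) = ∑ j, (θ i p * A p j) * G j := by
      intro p
      rw [mul_sum]
      exact sum_congr rfl fun j _ => by ring
    simp_rw [h4]
    rw [sum_comm]
    simp_rw [← sum_mul, C.tA]
    simp
  have h5 : ∑ p, θ i p * FR.Fd e A p (TC.vv n0 θ c) = e i (TC.vv n0 θ c) := h3 (fun j => e j (TC.vv n0 θ c))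
  have h6 : ∀ p, ∑ f, TC.Ga A w p c f * TC.vv n0 θ f
      = ∑ j, A p j * (∑ f, w j c f * TC.vv n0 θ f) := by
    intro p
    simp_rw [TC.Ga, sum_mul, mul_sum]
    rw [sum_comm]
    exact sum_congr rfl fun j _ => sum_congr rfl fun f _ => by ring
  rw [← h5]
  simp_rw [h1, h6]
  exact h3 _

/-- `∑_f F_ijcf vv_f = 0` -/
theorem Fvv (B : BH e n0) (C : CH A θ w) (h0 : ∀ a b c, TC.ta e n0 A θ w a b c = 0)
    (hw : ∀ c d, TC.wr n0 w c d = 0) (i j c : Ix n) :
    ∑ f, TC.F e n0 w i j c f * TC.vv n0 θ f = 0 := by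
  have hd := dvv B C h0 hw
  have h1 : ∀ i j, e i (e j (TC.vv n0 θ c)) = ∑ f, e i (w j c f) * TC.vv n0 θ f
      + ∑ f, (∑ g, w j c g * w i g f) * TC.vv n0 θ f := by
    intro i j
    rw [hd j c, map_sum]
    simp_rw [dmul, hd i]
    rw [sum_add_distrib, add_comm]
    congr 1
    · exact sum_congr rfl fun f _ => by ring
    · simp_rw [mul_sum, sum_mul]
      rw [sum_comm]
      exact sum_congr rfl fun f _ => sum_congr rfl fun g _ => by ring
  have h2 := B.ee i j (TC.vv n0 θ c)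
  rw [h1 i j, h1 j i, hd i c, hd j c] at h2
  have h3 : ∀ f, TC.F e n0 w i j c f * TC.vv n0 θ f = e i (w j c f) * TC.vv n0 θ f
      - e j (w i c f) * TC.vv n0 θ f + ((∑ g, w j c g * w i g f) * TC.vv n0 θ f
      - (∑ g, w i c g * w j g f) * TC.vv n0 θ f)
      - (n0 i * (w j c f * TC.vv n0 θ f) - n0 j * (w i c f * TC.vv n0 θ f)) := by
    intro f
    rw [TC.F, sum_sub_distrib]
    ring
  simp_rw [h3]
  rw [sum_sub_distrib, sum_add_distrib, sum_sub_distrib, sum_sub_distrib, sum_sub_distrib,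
    ← mul_sum, ← mul_sum, ← h2]
  ring

theorem Kvv (B : BH e n0) (C : CH A θ w) (h0 : ∀ a b c, TC.ta e n0 A θ w a b c = 0)
    (hw : ∀ c d, TC.wr n0 w c d = 0) (a b c : Ix n) :
    ∑ f, TC.K e n0 A w a b c f * TC.vv n0 θ f = 0 := by
  have h1 : ∀ f, TC.K e n0 A w a b c f * TC.vv n0 θ f
      = ∑ i, ∑ j, A a i * A b j * (TC.F e n0 w i j c f * TC.vv n0 θ f) := by
    intro f
    rw [TC.K, sum_mul]
    refine sum_congr rfl fun i _ => ?_
    rw [sum_mul]
    exact sum_congr rfl fun j _ => by ring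
  simp_rw [h1]
  rw [sum_comm]
  refine sum_eq_zero fun i _ => ?_
  rw [sum_comm]
  refine sum_eq_zero fun j _ => ?_
  rw [← mul_sum, Fvv B C h0 hw, mul_zero]

end

/-- packet RAD -/
theorem rad : G_RAD := by
  intro HA n 𝒜 _ _ e n0 A θ w B C
  refine ⟨rad1 B C, rad2 B C, rad3 B C, fun h0 hw => ⟨fun c => ?_, fun c => ?_⟩⟩
  · simp_rw [TC.Sr, sum_mul]
    rw [sum_comm]
    refine sum_eq_zero fun b _ => ?_
    exact Kvv B C h0 hw c b b
  · obtain ⟨_, _, _, hK, _⟩ := HA n 𝒜 e n0 A θ w C.anti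
    simp_rw [TC.Sr, mul_sum]
    rw [sum_comm]
    refine sum_eq_zero fun b _ => ?_
    have h1 := rad1 B C b b c
    have h2 : TC.cd2 e A w b (TC.wr n0 w) b c = 0 := by
      rw [TC.cd2, FR.Fd]
      simp [hw]
    rw [h2] at h1
    have h3 : ∀ f, TC.vv n0 θ f * TC.K e n0 A w f b b c = - (TC.vv n0 θ f * TC.K e n0 A w b f b c) := by
      intro f
      rw [hK f b b c]; ring
    simp_rw [h3]
    rw [sum_neg_distrib, ← h1, neg_zero]

end Pool.Agent.Helper77.RN
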